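import Mathlib

/-! Translations of polynomials in two variables and multiplicity at a point of the affine plane. -/

namespace Pool.Agent.TH793.UM

open MvPolynomial

/-- the translate `F (x + P)` -/
noncomputable def sh {R : Type*} [CommSemiring R] (P : Fin 2 → R) :
    MvPolynomial (Fin 2) R →ₐ[R] MvPolynomial (Fin 2) R :=
  MvPolynomial.aeval (fun i => MvPolynomial.X i + MvPolynomial.C (P i))

/-- `F` has multiplicity at least `m` at the point `P` -/
def Mul {R : Type*} [CommSemiring R] (F : MvPolynomial (Fin 2) R) (P : Fin 2 → R) (m : ℕ) : Prop :=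
  ∀ s : Fin 2 →₀ ℕ, s.degree < m → MvPolynomial.coeff s (sh P F) = 0

end Pool.Agent.TH793.UM
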