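import Pool.Agent.TH793.UM.Coll
import Pool.Agent.TH552.BB.TransF
import Pool.Agent.TH603.Sur.Forms
import Pool.Agent.TH1.NG.Mult

/-! The matching lemma from points in common position. -/

namespace Pool.Agent.TH793.UM

open MvPolynomial Pool.Agent.TH176.Nag Pool.Agent.TH603.Sur

section bridge
variable {K : Type*} [Field K]

theorem coeff_sh_mon (P : Fin 2 → K) (a b : ℕ) (c : K) (s : Fin 2 →₀ ℕ) :
    coeff s (sh P (monomial (Finsupp.single 0 a + Finsupp.single 1 b) c)) =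
      c * ((a.choose (s 0) : K) * (b.choose (s 1) : K) * (P 0 ^ (a - s 0) * P 1 ^ (b - s 1))) := by
  classical
  have h1 : monomial (Finsupp.single 0 a + Finsupp.single 1 b : Fin 2 →₀ ℕ) c =
      C c * (X 0 ^ a * X 1 ^ b) := by
    rw [X_pow_eq_monomial, X_pow_eq_monomial, monomial_mul, C_mul_monomial, mul_one, mul_one]
  have h2 : ∀ (i : Fin 2) (u : K) (n : ℕ), (X i + C u : MvPolynomial (Fin 2) K) ^ n =
      ∑ k ∈ Finset.range (n + 1), monomial (Finsupp.single i k) (u ^ (n - k) * (n.choose k : K)) := by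
    intro i u n
    rw [add_pow]
    refine Finset.sum_congr rfl fun k _ => ?_
    rw [X_pow_eq_monomial, ← map_pow, ← C_eq_coe_nat, mul_assoc, ← map_mul, mul_comm,
      C_mul_monomial, mul_one]
  rw [h1, map_mul, map_mul, map_pow, map_pow, sh_X, sh_X, sh_C, h2, h2, Finset.sum_mul_sum,
    coeff_C_mul, coeff_sum]
  congr 1
  have h3 : ∀ i j : ℕ, (Finsupp.single 0 i + Finsupp.single 1 j : Fin 2 →₀ ℕ) = s ↔
      i = s 0 ∧ j = s 1 := by
    intro i j
    constructor
    · intro h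
      rw [← h]
      simp
    · rintro ⟨rfl, rfl⟩
      ext k
      fin_cases k <;> simp
  have h4 : ∀ i, coeff s (∑ j ∈ Finset.range (b + 1),
      monomial (Finsupp.single 0 i) (P 0 ^ (a - i) * (a.choose i : K)) *
        monomial (Finsupp.single 1 j) (P 1 ^ (b - j) * (b.choose j : K))) =
      if i = s 0 then P 0 ^ (a - i) * (a.choose i : K) *
        (P 1 ^ (b - s 1) * (b.choose (s 1) : K)) else 0 := by
    intro i
    rw [coeff_sum]
    simp_rw [monomial_mul, coeff_monomial, h3]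
    split_ifs with hi
    · rw [Finset.sum_eq_single (s 1)]
      · rw [if_pos ⟨hi, rfl⟩]
      · intro j _ hj
        rw [if_neg]
        rintro ⟨_, h⟩
        exact hj h
      · intro hj
        rw [Finset.mem_range, not_lt] at hj
        rw [Nat.choose_eq_zero_of_lt (by omega : b < s 1)]
        simp
    · apply Finset.sum_eq_zero
      intro j _
      rw [if_neg]
      rintro ⟨h, _⟩
      exact hi h
  rw [Finset.sum_congr rfl fun i _ => h4 i, Finset.sum_ite_eq']
  split_ifs with h5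
  · ring
  · rw [Finset.mem_range, not_lt] at h5
    rw [Nat.choose_eq_zero_of_lt (by omega : a < s 0)]
    simp

/-- the polynomial with the coefficients of a function on pairs of integers -/
noncomputable def toP (f : (ℤ × ℤ) →₀ K) : MvPolynomial (Fin 2) K :=
  f.sum fun m c => monomial (Finsupp.single 0 m.1.toNat + Finsupp.single 1 m.2.toNat) c

theorem Mul_toP [CharZero K] {f : (ℤ × ℤ) →₀ K} {P : Fin 2 → K} (hP : ∀ i, P i ≠ 0) {w : ℕ}
    (h : LM f (P 0) (P 1) w) (hf : ∀ m ∈ f.support, 0 ≤ m.1 ∧ 0 ≤ m.2) : Mul (toP f) P w := by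
  intro s hs
  have h1 := Pool.Agent.TH1.NG.taylor_zero (hP 0) (hP 1) h hf (a := s 0) (b := s 1) (by
    have : s.degree = s 0 + s 1 := by rw [Finsupp.degree_eq_sum, Fin.sum_univ_two]
    omega)
  rw [← h1]
  unfold toP Finsupp.sum
  rw [map_sum, coeff_sum]
  exact Finset.sum_congr rfl fun m _ => coeff_sh_mon P _ _ _ s

theorem coeff_toP {f : (ℤ × ℤ) →₀ K} (hf : ∀ m ∈ f.support, 0 ≤ m.1 ∧ 0 ≤ m.2)
    (s : Fin 2 →₀ ℕ) : coeff s (toP f) = f ((s 0 : ℤ), (s 1 : ℤ)) := by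
  classical
  unfold toP Finsupp.sum
  rw [coeff_sum]
  simp_rw [coeff_monomial]
  have h3 : ∀ m ∈ f.support, (Finsupp.single 0 m.1.toNat + Finsupp.single 1 m.2.toNat :
      Fin 2 →₀ ℕ) = s ↔ m = ((s 0 : ℤ), (s 1 : ℤ)) := by
    intro m hm
    obtain ⟨ha, hb⟩ := hf m hm
    constructor
    · intro h
      have e0 := DFunLike.congr_fun h 0
      have e1 := DFunLike.congr_fun h 1
      simp at e0 e1
      ext
      · simp only; omega
      · simp only; omega
    · rintro rfl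
      ext k
      fin_cases k <;> simp
  rw [Finset.sum_congr rfl (g := fun m => if m = ((s 0 : ℤ), (s 1 : ℤ)) then f m else 0)
    (fun m hm => by simp only [h3 m hm]), Finset.sum_ite_eq']
  split_ifs with h
  · rfl
  · exact (Finsupp.notMem_support_iff.1 h).symm

theorem toP_zero {f : (ℤ × ℤ) →₀ K} (hf : ∀ m ∈ f.support, 0 ≤ m.1 ∧ 0 ≤ m.2) (h : toP f = 0) :
    f = 0 := by
  ext m
  by_contra hne
  obtain ⟨ha, hb⟩ := hf m (Finsupp.mem_support_iff.2 hne)
  apply hne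
  have h1 := coeff_toP hf (Finsupp.single 0 m.1.toNat + Finsupp.single 1 m.2.toNat)
  rw [h, coeff_zero] at h1
  rw [Finsupp.zero_apply, h1]
  congr 1
  ext
  · simp [ha]
  · simp [hb]

theorem dg_toP {f : (ℤ × ℤ) →₀ K} {d : ℕ} (hf : (↑f.support : Set (ℤ × ℤ)) ⊆ TZ d) :
    (toP f).totalDegree ≤ d := by
  rw [dg_iff]
  intro s hs
  rw [coeff_toP (fun m hm => ⟨(hf (Finset.mem_coe.2 hm)).1, (hf (Finset.mem_coe.2 hm)).2.1⟩)]
  by_contra hne
  have h1 := (hf (Finset.mem_coe.2 (Finsupp.mem_support_iff.2 hne))).2.2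
  have : s.degree = s 0 + s 1 := by rw [Finsupp.degree_eq_sum, Fin.sum_univ_two]
  simp only at h1
  omega

end bridge

/-- **the matching lemma**, from the linear algebra at one configuration of points -/
theorem match_of_points {ι₁ ι₂ : Type} {w₁ : ι₁ → ℕ} {w₂ : ι₂ → ℕ} {D d : ℕ} (hD : 1 ≤ D)
    (A : ι₁ → Fin 2 → ℂ) (p0 : Fin 2 → ℂ) (Q : ι₂ → Fin 2 → ℂ)
    (W V : Submodule ℂ (MvPolynomial (Fin 2) ℂ)) (hp0 : ∀ i, p0 i ≠ 0) (hQ : ∀ j i, Q j i ≠ 0)
    (hW : ∀ T ∈ W, T.IsHomogeneous D) (hV : ∀ T ∈ V, T.IsHomogeneous D)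
    (hdim : Module.finrank ℂ W + Module.finrank ℂ V ≤ D + 1)
    (c1 : ∀ F : MvPolynomial (Fin 2) ℂ, F.totalDegree ≤ D - 1 → (∀ i, Mul F (A i) (w₁ i)) → F = 0)
    (c2 : ∀ F : MvPolynomial (Fin 2) ℂ, F.totalDegree ≤ D → (∀ i, Mul F (A i) (w₁ i)) →
      homogeneousComponent D F ∈ W)
    (c3 : ∀ F : MvPolynomial (Fin 2) ℂ, F.totalDegree ≤ d → Mul F p0 D →
      (∀ j, Mul F (Q j) (w₂ j)) → homogeneousComponent D (sh p0 F) ∈ V)
    (c4 : ∀ F : MvPolynomial (Fin 2) ℂ, F.totalDegree ≤ d → Mul F p0 (D + 1) →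
      (∀ j, Mul F (Q j) (w₂ j)) → F = 0) :
    Emp (Sum.elim w₁ w₂) (TZ d) := by
  obtain ⟨g, hg, hWV⟩ := Pool.Agent.TH552.BB.transversal_forms W V hW hV hdim
  have hinj : ∀ F : MvPolynomial (Fin 2) ℂ, li g F = 0 → F = 0 := by
    intro F hF
    have h1 : li g⁻¹ (li g F) = F := by
      rw [li_li, Matrix.mul_nonsing_inv g (Ne.isUnit hg), li_one]
    rw [← h1, hF, map_zero]
  have ha : ∀ F : MvPolynomial (Fin 2) ℂ, F.totalDegree ≤ D - 1 →
      (∀ i, Mul F (g.mulVec (A i)) (w₁ i)) → F = 0 := fun F hF hm =>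
    hinj F (c1 _ (dg_li hF) fun i => Mul_li (hm i))
  have hx : ∀ F H : MvPolynomial (Fin 2) ℂ, F.totalDegree ≤ d → Mul F p0 D →
      (∀ j, Mul F (Q j) (w₂ j)) → H.totalDegree ≤ D → (∀ i, Mul H (g.mulVec (A i)) (w₁ i)) →
      homogeneousComponent D H = homogeneousComponent D (sh p0 F) →
      homogeneousComponent D H = 0 := by
    intro F H hF hF0 hFQ hH hHA he
    have h1 := c3 F hF hF0 hFQ
    rw [← he] at h1
    have h2 := c2 (li g H) (dg_li hH) fun i => Mul_li (hHA i)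
    rw [hc_li] at h2
    exact (hWV _ h2 _ h1 rfl).2
  have hinj' : Function.Injective (algebraMap (Polynomial ℂ) (FractionRing (Polynomial ℂ))) :=
    IsFractionRing.injective _ _
  have hc0 : CharZero (FractionRing (Polynomial ℂ)) := charZero_of_injective_algebraMap hinj'
  set xs : ι₁ ⊕ ι₂ → Fin 2 → FractionRing (Polynomial ℂ) :=
    Sum.elim (fun i k => algebraMap (Polynomial ℂ) (FractionRing (Polynomial ℂ))
      (Polynomial.C (p0 k) + Polynomial.X * Polynomial.C (g.mulVec (A i) k)))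
      (fun j k => algebraMap (Polynomial ℂ) (FractionRing (Polynomial ℂ)) (Polynomial.C (Q j k)))
    with hxs
  have hne : ∀ a k, xs a k ≠ 0 := by
    rintro (i | j) k
    · rw [hxs]
      simp only [Sum.elim_inl]
      rw [Ne, map_eq_zero_iff _ hinj']
      intro h0
      have h1 := congrArg (Polynomial.eval 0) h0
      simp at h1
      exact hp0 k h1
    · rw [hxs]
      simp only [Sum.elim_inr]
      rw [Ne, map_eq_zero_iff _ hinj', Polynomial.C_eq_zero]
      exact hQ j k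
  refine ⟨FractionRing (Polynomial ℂ), inferInstance, hc0, fun a => xs a 0, fun a => xs a 1,
    fun a => hne a 0, fun a => hne a 1, fun f hfS hfL => ?_⟩
  have hf : ∀ m ∈ f.support, 0 ≤ m.1 ∧ 0 ≤ m.2 := fun m hm =>
    ⟨(hfS (Finset.mem_coe.2 hm)).1, (hfS (Finset.mem_coe.2 hm)).2.1⟩
  apply toP_zero hf
  have hm : ∀ a, Mul (toP f) (xs a) (Sum.elim w₁ w₂ a) := fun a => Mul_toP (hne a) (hfL a) hf
  exact coll_K hD ha c4 hx (toP f) (dg_toP hfS) (fun i => hm (Sum.inl i)) (fun j => hm (Sum.inr j))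

end Pool.Agent.TH793.UM
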