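import Pool.Agent.TH793.UM.Pts
import Pool.Agent.TH552.BB.Common

/-! **The matching lemma**: a group of points is replaced by one point of multiplicity `D`. -/

namespace Pool.Agent.TH793.UM

open Pool.Agent.TH176.Nag Pool.Agent.TH603.Sur

/-- **The matching lemma.**  If the points of multiplicities `w₁` and `p` simple points lie on no
curve of degree `D`, the points of multiplicities `w₁` lie on no curve of degree `D - 1`, the points
of multiplicities `D`, `w₂` and `q` simple points lie on no curve of degree `d`, the points of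
multiplicities `D + 1`, `w₂` lie on no curve of degree `d`, and `p + q ≤ D + 1`, then the points of
multiplicities `w₁`, `w₂` lie on no curve of degree `d`. -/
theorem match_E {ι₁ ι₂ : Type} [Finite ι₁] [Finite ι₂] (w₁ : ι₁ → ℕ) (w₂ : ι₂ → ℕ) (D d p q : ℕ)
    (hD : 1 ≤ D) (hpq : p + q ≤ D + 1)
    (h1 : Emp (Sum.elim w₁ (fun _ : Fin p => 1)) (TZ D)) (h2 : Emp w₁ (TZ (D - 1)))
    (h3 : Emp (Sum.elim (fun o : Option ι₂ => o.elim D w₂) (fun _ : Fin q => 1)) (TZ d))
    (h4 : Emp (fun o : Option ι₂ => o.elim (D + 1) w₂) (TZ d)) : Emp (Sum.elim w₁ w₂) (TZ d) := by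
  obtain ⟨A, p0, Q, W, V, hp0, hQ, hW, hV, hWp, hVq, c1, c2, c3, c4⟩ :=
    Pool.Agent.TH552.BB.common w₁ w₂ D d p q h1 h2 h3 h4
  exact match_of_points hD A p0 Q W V hp0 hQ hW hV (by omega) c1 c2 c3 c4

end Pool.Agent.TH793.UM
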